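import Pool.Agent.W_MP_3ab0ed_p4.XSys

/-!
Burnside part, piece P4, file 2: lemma A. Elements of `Stab v` move every point by almost
`2 (ρ - H)`, where `ρ` is its distance to the apex and `H = R + 1`.
-/

namespace Burn

namespace XSys

variable {G X V : Type} [Group G] [MulAction G X] [MulAction G V]
  {d : X → X → ℕ} {Y : V → Set X} {c : V → G} {p N D4 CX T : ℕ}

/-- Projections are equivariant up to 9: `g • proj (Y v) x` is also a nearest point to `g • x`
in `Y (g • v)`; two nearest points are at distance at most 9 (`proj1`). -/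
theorem proj_smul (S : XSys G X V d Y c p N D4 CX T) (g : G) (v : V) (x : X) :
    d (g • proj d (Y v) x) (proj d (Y (g • v)) (g • x)) ≤ 9 := by
  have ha : g • proj d (Y v) x ∈ Y (g • v) := S.hY g v _ (proj_mem (S.hF.ne v) x)
  have hb : proj d (Y (g • v)) (g • x) ∈ Y (g • v) := proj_mem (S.hF.ne _) _
  have h1 := proj1 S.hd S.hh (S.hF.qc (g • v)) (g • x) ha
  have h2 : d (g • x) (g • proj d (Y v) x) ≤ d (g • x) (proj d (Y (g • v)) (g • x)) := by
    have h3 : g⁻¹ • proj d (Y (g • v)) (g • x) ∈ Y v := by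
      have := S.hY g⁻¹ (g • v) _ hb
      rwa [inv_smul_smul] at this
    have h4 := proj_le (d := d) (S.hF.ne v) x h3
    have h5 := S.inv g x (g⁻¹ • proj d (Y (g • v)) (g • x))
    rw [smul_inv_smul] at h5
    rw [S.inv, h5]
    exact h4
  have h3 := S.hd.symm (g • proj d (Y v) x) (proj d (Y (g • v)) (g • x))
  omega

/-- Projections of another member of the family are small. If `d (π y) (π y') > 50` then
`proj4`, `proj4'` and `near_of_btw_qc` put both projections in the 24-neighbourhood of `Y v'`;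
`Fam.ov` gives `≤ 2 * 24 + 2`. -/
theorem proj_Y (S : XSys G X V d Y c p N D4 CX T) {v v' : V} (h : v ≠ v') {y y' : X}
    (hy : y ∈ Y v') (hy' : y' ∈ Y v') :
    d (proj d (Y v) y) (proj d (Y v) y') ≤ 50 := by
  by_contra hc
  have hD : 4 * 2 + 5 * 2 + 2 < 2 * d (proj d (Y v) y) (proj d (Y v) y') := by omega
  have h1 := proj4 S.hd S.hh (S.hF.ne v) (S.hF.qc v) y y' hD
  have h2 := proj4' S.hd S.hh (S.hF.ne v) (S.hF.qc v) y y' hD
  have h3 := near_of_btw_qc S.hd S.hh (S.hF.qc v') hy hy' h1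
  have h4 := near_of_btw_qc S.hd S.hh (S.hF.qc v') hy hy' h2
  have h5 : Near d (Y v) 24 (proj d (Y v) y) :=
    ⟨_, proj_mem (S.hF.ne v) y, by rw [S.hd.self]; omega⟩
  have h6 : Near d (Y v) 24 (proj d (Y v) y') :=
    ⟨_, proj_mem (S.hF.ne v) y', by rw [S.hd.self]; omega⟩
  have h7 := S.hF.ov v v' h 24 _ _ h5 (h3.mono (by omega)) h6 (h4.mono (by omega))
  omega

/-- Behrstock inequality. Put `q = π_v x`, `q' = π_v' x`. If both distances are `> 79` then
(using `proj_Y`) `d q (π_v q') ≥ 30` and `d q' (π_v' q) ≥ 30`, and `proj2` twice gives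
`d x q + 30 ≤ d x q' + 20` and `d x q' + 30 ≤ d x q + 20`. -/
theorem behr (S : XSys G X V d Y c p N D4 CX T) {v v' : V} (h : v ≠ v') {x y y' : X}
    (hy : y ∈ Y v') (hy' : y' ∈ Y v) :
    d (proj d (Y v) x) (proj d (Y v) y) ≤ 79 ∨
      d (proj d (Y v') x) (proj d (Y v') y') ≤ 79 := by
  by_contra hc
  push Not at hc
  obtain ⟨hc1, hc2⟩ := hc
  have hq : proj d (Y v) x ∈ Y v := proj_mem (S.hF.ne v) x
  have hq' : proj d (Y v') x ∈ Y v' := proj_mem (S.hF.ne v') x
  have a1 := S.proj_Y h hy hq'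
  have a2 := S.proj_Y h.symm hy' hq
  have t1 := S.hd.tri (proj d (Y v) x) (proj d (Y v) (proj d (Y v') x)) (proj d (Y v) y)
  have t2 := S.hd.tri (proj d (Y v') x) (proj d (Y v') (proj d (Y v) x)) (proj d (Y v') y')
  have s1 := S.hd.symm (proj d (Y v) (proj d (Y v') x)) (proj d (Y v) y)
  have s2 := S.hd.symm (proj d (Y v') (proj d (Y v) x)) (proj d (Y v') y')
  have b1 := proj2 S.hd S.hh (S.hF.ne v) (S.hF.qc v) x (proj d (Y v') x) (by omega)
  have b2 := proj2 S.hd S.hh (S.hF.ne v') (S.hF.qc v') x (proj d (Y v) x) (by omega)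
  omega

/-- Case I: by `behr` (for `x` and for `x'`), with `p = π_v x` in `Y v`. For `v' = v` the
projection of `p` is `p` (`proj_self`). -/
theorem caseI (S : XSys G X V d Y c p N D4 CX T) {v : V} {x x' : X}
    (h : 159 ≤ d (proj d (Y v) x) (proj d (Y v) x')) (v' : V) :
    d (proj d (Y v') x) (proj d (Y v') (proj d (Y v) x)) ≤ 79 ∨
      d (proj d (Y v') (proj d (Y v) x)) (proj d (Y v') x') ≤ 79 := by
  have hq : proj d (Y v) x ∈ Y v := proj_mem (S.hF.ne v) x
  by_cases hv : v' = v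
  · subst hv
    left
    rw [proj_self S.hd hq, S.hd.self]
    omega
  · obtain ⟨y, hy⟩ := S.hF.ne v'
    have hv' : v ≠ v' := fun e => hv e.symm
    rcases S.behr hv' (x := x) hy hq with h1 | h1
    · rcases S.behr hv' (x := x') hy hq with h2 | h2
      · exfalso
        have t := S.hd.tri (proj d (Y v) x) (proj d (Y v) y) (proj d (Y v) x')
        have s := S.hd.symm (proj d (Y v) y) (proj d (Y v) x')
        omega
      · right
        rw [S.hd.symm]
        exact h2
    · left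
      exact h1

/-- Case II. For `v' = v` trivial. Let `v' ≠ v` and suppose both distances are `> 5000`; put
`q = π_v x`. `d q (g q) ≤ 167` (`proj_smul`). `v'' = g⁻¹ • v' ≠ v'` (`disj`) and `v'' ≠ v`.
By `proj_smul` (twice) and `proj_Y` (`q`, `g⁻¹ q` in `Y v`) `d (π_v'' x) (π_v'' q) > 4900`.
Put `b = π_v' q`, `a = π_v' x`, `b'' = π_v'' q`, `a'' = π_v'' x`. `proj2`: `Btw 20 x b q`,
`Btw 20 x b'' q`, `Btw 20 x a b`, `Btw 20 x a'' b''`. `|d q b - d q b''| ≤ 167` because
`d q b = d(q, Y v')` and `d q b'' = d(q, Y v'') = d(g q, Y v')`. Four point inequality: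
`d b b'' ≤ 189`. `overlap_lemma` (sets `Y v'`, `Y v''`, `x' := x`, `p := b`, `s = 189`,
`e = 398`): `min (d b a) (d b a'') ≤ 1600`, contradiction. -/
theorem caseII (S : XSys G X V d Y c p N D4 CX T) {v : V} {x : X} {g : G} (hg : g • v = v)
    (h1 : g ≠ 1) (h : d (proj d (Y v) x) (proj d (Y v) (g • x)) ≤ 158) (v' : V) :
    d (proj d (Y v') x) (proj d (Y v') (proj d (Y v) x)) ≤ 5000 ∨
      d (proj d (Y v') (proj d (Y v) x)) (proj d (Y v') (g • x)) ≤ 5000 := by
  have hqm : proj d (Y v) x ∈ Y v := proj_mem (S.hF.ne v) x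
  by_cases hv : v' = v
  · subst hv
    left
    rw [proj_self S.hd hqm, S.hd.self]
    omega
  by_contra hc
  push Not at hc
  obtain ⟨hc1, hc2⟩ := hc
  have hgi : g⁻¹ • v = v := by
    rw [inv_smul_eq_iff]; exact hg.symm
  set q := proj d (Y v) x with hqdef
  have hqg : d q (g • q) ≤ 167 := by
    have e1 := S.proj_smul g v x
    rw [hg, ← hqdef] at e1
    have t := S.hd.tri q (proj d (Y v) (g • x)) (g • q)
    have s := S.hd.symm (proj d (Y v) (g • x)) (g • q)
    omega
  obtain ⟨w, hw⟩ : ∃ w, w = g⁻¹ • v' := ⟨_, rfl⟩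
  have hgw : g • w = v' := by rw [hw, smul_inv_smul]
  have hwv' : w ≠ v' := by
    intro e
    rw [e] at hgw
    exact h1 (S.disj g v v' (fun e => hv e.symm) hg hgw)
  have hwv : w ≠ v := by
    intro e
    rw [e, hg] at hgw
    exact hv hgw.symm
  -- the four projections
  obtain ⟨a, haD⟩ : ∃ a, a = proj d (Y v') x := ⟨_, rfl⟩
  obtain ⟨b, hbD⟩ : ∃ b, b = proj d (Y v') q := ⟨_, rfl⟩
  obtain ⟨a', haD'⟩ : ∃ a', a' = proj d (Y w) x := ⟨_, rfl⟩
  obtain ⟨b', hbD'⟩ : ∃ b', b' = proj d (Y w) q := ⟨_, rfl⟩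
  have hma : a ∈ Y v' := haD ▸ proj_mem (S.hF.ne v') x
  have hmb : b ∈ Y v' := hbD ▸ proj_mem (S.hF.ne v') q
  have hma' : a' ∈ Y w := haD' ▸ proj_mem (S.hF.ne w) x
  have hmb' : b' ∈ Y w := hbD' ▸ proj_mem (S.hF.ne w) q
  rw [← haD, ← hbD] at hc1
  rw [← hbD] at hc2
  have hbig : 4932 < d a' b' := by
    have e1 := S.proj_smul g w x
    have e2 := S.proj_smul g w (g⁻¹ • q)
    rw [hgw, ← haD'] at e1
    rw [hgw, smul_inv_smul, ← hbD] at e2
    have hgq : g⁻¹ • q ∈ Y v := by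
      have := S.hY g⁻¹ v q hqm
      rwa [hgi] at this
    have e3 := S.proj_Y hwv hqm hgq
    rw [← hbD'] at e3
    have e4 := S.inv g a' (proj d (Y w) (g⁻¹ • q))
    have t1 := S.hd.tri b (g • proj d (Y w) (g⁻¹ • q)) (proj d (Y v') (g • x))
    have t2 := S.hd.tri (g • proj d (Y w) (g⁻¹ • q)) (g • a') (proj d (Y v') (g • x))
    have t3 := S.hd.tri a' b' (proj d (Y w) (g⁻¹ • q))
    have s1 := S.hd.symm b (g • proj d (Y w) (g⁻¹ • q))
    have s2 := S.hd.symm (g • proj d (Y w) (g⁻¹ • q)) (g • a')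
    omega
  have hp1 := proj2 S.hd S.hh (S.hF.ne v') (S.hF.qc v') x q (by rw [← haD, ← hbD]; omega)
  rw [← haD, ← hbD] at hp1
  have hp2 := proj2 S.hd S.hh (S.hF.ne w) (S.hF.qc w) x q (by rw [← haD', ← hbD']; omega)
  rw [← haD', ← hbD'] at hp2
  -- distances from `q` to `b` and `b'`
  have hqb' : d q b' ≤ d q b + 167 := by
    have m1 : g⁻¹ • b ∈ Y w := by
      have := S.hY g⁻¹ v' b hmb
      rwa [← hw] at this
    have e1 := proj_le (d := d) (S.hF.ne w) q m1
    rw [← hbD'] at e1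
    have e2 := S.inv g q (g⁻¹ • b)
    rw [smul_inv_smul] at e2
    have t := S.hd.tri (g • q) q b
    have s := S.hd.symm (g • q) q
    omega
  have hqb : d q b ≤ d q b' + 167 := by
    have m1 : g • b' ∈ Y v' := by
      have := S.hY g w b' hmb'
      rwa [hgw] at this
    have e1 := proj_le (d := d) (S.hF.ne v') q m1
    rw [← hbD] at e1
    have e2 := S.inv g q b'
    have t := S.hd.tri q (g • q) (g • b')
    omega
  have tb := S.hd.tri x a b
  have tb' := S.hd.tri x a' b'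
  have s1 := S.hd.symm b q
  have s2 := S.hd.symm b' q
  have s3 := S.hd.symm b x
  have s4 := S.hd.symm b' x
  have s5 := S.hd.symm a b
  have hbb : d b b' ≤ 189 := by
    have h4 := S.hh b b' x q
    omega
  have tq := S.hd.tri x b q
  have tq' := S.hd.tri x b' q
  have tt := S.hd.tri a' b' b
  have s6 := S.hd.symm b b'
  have tx := S.hd.tri x b b'
  have hB1 : Btw d 398 x a b := by
    unfold Btw
    omega
  have hB2 : Btw d 398 x a' b := by
    unfold Btw
    omega
  have hN1 : Near d (Y v') 189 b := ⟨b, hmb, by rw [S.hd.self]; omega⟩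
  have hN2 : Near d (Y w) 189 b := ⟨b', hmb', hbb⟩
  have hov := overlap_lemma S.hd S.hh (S.hF.qc v') (S.hF.qc w)
    (fun t y y' k1 k2 k3 k4 => S.hF.ov v' w (fun e => hwv' e.symm) t y y' k1 k2 k3 k4)
    hma hma' hB1 hB2 hN1 hN2
  have s7 := S.hd.symm b a'
  have s8 := S.hd.symm a' b'
  have t8 := S.hd.tri a' b b'
  omega

end XSys

namespace ZSys

variable {G X V Z : Type} [Group G] [MulAction G X] [MulAction G V] [MulAction G Z]
    {d : X → X → ℕ} {Y : V → Set X} {c : V → G} {p N D4 CX T D R Th c6 : ℕ}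
    {Kad : ℕ → ℕ → ℕ} {ρ : Z → Z → ℕ} {pt : X → Z} {apex : V → Z}
    {F : RotFam G Z X ρ D (2 * R + 2) Th T}

/-- LEMMA A. `q = π_v x`, `q' = π_v (g x)`. Note `ρ (apex v) (g x) = ρ (apex v) x` and
`ρ (apex v) (pt x) ≤ (R+1) + ρ (pt q) (pt x)`, `ρ (apex v) (g x) ≤ (R+1) + ρ (pt q') (g x)`.
If `159 ≤ d q q'`: `Btw 20 x q (g x)` (`proj4`), `excess` with `caseI`:
`ρ x q + ρ q gx ≤ ρ x gx + Kad 20 79`; `Btw 9 (gx) q' q` (`proj1`) and `proj_Y`:
`ρ gx q' + ρ q' q ≤ ρ gx q + Kad 9 50`. Otherwise `d q q' ≤ 158` and `tube`: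
`Btw (158 + CX) x q (g x)` (note `d (gx) q' = d x q`), `excess` with `caseII`. -/
theorem lemA (S : ZSys G X V Z d Y c p N D4 CX T D R Th c6 Kad ρ pt apex F) {v : V} (x : X)
    {g : G} (hg : g • v = v) (h1 : g ≠ 1) :
    2 * ρ (apex v) (pt x) ≤ ρ (pt x) (g • pt x) + (2 * R + 2) + cCA Kad CX := by
  have hq : proj d (Y v) x ∈ Y v := proj_mem (S.xs.hF.ne v) x
  have hq' : proj d (Y v) (g • x) ∈ Y v := proj_mem (S.xs.hF.ne v) (g • x)
  obtain ⟨q, hqD⟩ : ∃ q, q = proj d (Y v) x := ⟨_, rfl⟩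
  obtain ⟨q', hqD'⟩ : ∃ q', q' = proj d (Y v) (g • x) := ⟨_, rfl⟩
  have a1 := S.apex_pt v _ hq
  have a2 := S.apex_pt v _ hq'
  have t1 := F.geo.tri (apex v) (pt q) (pt x)
  have t2 := F.geo.tri (apex v) (pt q') (pt (g • x))
  have t3 := F.geo.tri (apex v) (pt q) (pt (g • x))
  have i1 := F.inv g (apex v) (pt x)
  rw [S.apex_smul, hg, S.pt_smul] at i1
  have s1 := F.geo.symm (pt q) (pt x)
  have s2 := F.geo.symm (pt q') (pt (g • x))
  have s3 := F.geo.symm (pt q) (pt (g • x))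
  rw [S.pt_smul]
  rw [← hqD] at a1
  rw [← hqD'] at a2
  unfold cCA
  rcases Nat.lt_or_ge (d q q') 159 with hc | hc
  · have hb : Btw d (158 + CX) x q (g • x) := by
      have e1 := S.xs.tube g v x hg h1
      have e2 : g • proj d (Y v) x ∈ Y v := by
        have := S.xs.hY g v _ hq
        rwa [hg] at this
      have e3 := proj_le (d := d) (S.xs.hF.ne v) (g • x) e2
      rw [S.xs.inv, ← hqD', ← hqD] at e3
      rw [← hqD] at e1
      have t4 := S.xs.hd.tri q q' (g • x)
      have s4 := S.xs.hd.symm q' (g • x)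
      unfold Btw
      omega
    have e := S.excess x (g • x) q (158 + CX) 5000 hb (fun w => by
      have := S.xs.caseII hg h1 (x := x) (by rw [← hqD, ← hqD']; omega) w
      rw [← hqD] at this
      exact this)
    unfold Btw at e
    omega
  · have hb : Btw d 20 x q (g • x) := by
      have := proj4 S.xs.hd S.xs.hh (S.xs.hF.ne v) (S.xs.hF.qc v) x (g • x)
        (by rw [← hqD, ← hqD']; omega)
      rw [← hqD] at this
      exact this
    have e := S.excess x (g • x) q 20 79 hb (fun w => by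
      have := S.xs.caseI (x := x) (x' := g • x) (v := v) (by rw [← hqD, ← hqD']; exact hc) w
      rw [← hqD] at this
      exact this)
    have hb' : Btw d 9 (g • x) q' q := by
      have := proj1 S.xs.hd S.xs.hh (S.xs.hF.qc v) (g • x) hq
      rw [← hqD, ← hqD'] at this
      unfold Btw
      omega
    have e' := S.excess (g • x) q q' 9 50 hb' (fun w => by
      by_cases hw : w = v
      · left
        subst hw
        rw [← hqD', hqD', proj_self S.xs.hd hq', S.xs.hd.self]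
        omega
      · right
        rw [hqD, hqD']
        exact S.xs.proj_Y hw hq' hq)
    unfold Btw at e e'
    omega

/-- existence of gate points: `F.germ_ne` and `germ_iff` -/
theorem gate (S : ZSys G X V Z d Y c p N D4 CX T D R Th c6 Kad ρ pt apex F) (v : V) (u : Z)
    (h : R + 1 ≤ ρ (apex v) u) : ∃ y ∈ Y v, ρ (apex v) (pt y) + ρ (pt y) u = ρ (apex v) u := by
  have hm : apex v ∈ F.V := by rw [S.FV]; exact ⟨v, rfl⟩
  have hne : u ≠ apex v := by
    intro e
    rw [e, F.geo.self] at h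
    omega
  obtain ⟨y, hy⟩ := F.germ_ne (apex v) hm u hne
  exact ⟨y, (S.germ_iff v u h y).1 hy⟩

/-- LEMMA A'. Let `u = apex v'`, `w0 = apex v`. Gate point `x` of `Y v'` towards `w0`:
`ρ u (pt x) = R+1`, `ρ w0 u = ρ w0 (pt x) + (R + 1)`.
`g • u ≠ u` (`disj`), so `2R+2 ≤ ρ u (g u)`. Put `a = ρ w0 (pt x)`. Lemma A:
`2a ≤ ρ x gx + (2R+2) + CA`. If `2a ≤ (2R+2) + CA + 2D`: the claim follows from
`2R+2 ≤ ρ u (g u)`. Otherwise the four point inequality twice
(`E`-form at `w0`: `(x|gx) ≥ min((x|u),(u|gu),(gu|gx)) - D`, where `2(x|u) = 2a`) gives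
the claim. -/
theorem lemA' (S : ZSys G X V Z d Y c p N D4 CX T D R Th c6 Kad ρ pt apex F) {v v' : V}
    (hv : v' ≠ v) {g : G} (hg : g • v = v) (h1 : g ≠ 1) :
    2 * ρ (apex v) (apex v') ≤
      ρ (apex v') (g • apex v') + (2 * R + 2) + cCA Kad CX + 2 * D := by
  have hsep := S.sep v' v hv
  obtain ⟨y, hy, hyg⟩ := S.gate v' (apex v) (by omega)
  have e1 := S.apex_pt v' y hy
  have hgv : g • v' ≠ v' := fun e => h1 (S.xs.disj g v v' (fun e => hv e.symm) hg e)
  have hsep2 := S.sep v' (g • v') (fun e => hgv e.symm)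
  rw [← S.apex_smul] at hsep2
  have hA := S.lemA y hg h1
  have i1 := F.inv g (apex v) (apex v')
  have i2 := F.inv g (apex v) (pt y)
  have i3 := F.inv g (apex v') (pt y)
  rw [S.apex_smul g v, hg] at i1 i2
  have k1 := F.hyp (pt y) (g • apex v') (apex v) (apex v')
  have k2 := F.hyp (pt y) (g • pt y) (apex v) (g • apex v')
  have s1 := F.geo.symm (apex v') (apex v)
  have s2 := F.geo.symm (pt y) (apex v)
  have s3 := F.geo.symm (g • apex v') (apex v')
  have s4 := F.geo.symm (pt y) (apex v')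
  have s5 := F.geo.symm (g • apex v') (apex v)
  have s6 := F.geo.symm (g • pt y) (g • apex v')
  have s7 := F.geo.symm (g • pt y) (apex v)
  omega

end ZSys

end Burn
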