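import Pool.Agent.W_MP_3ab0ed_p4.A

/-!
Burnside part, piece P4, file 3: lemma B, the quotient by `K = KA F`, elements of `G ⧸ K`
fixing an apex (case E).
-/

namespace Burn

namespace ZSys

variable {G X V Z : Type} [Group G] [MulAction G X] [MulAction G V] [MulAction G Z]
    {d : X → X → ℕ} {Y : V → Set X} {c : V → G} {p N D4 CX T D R Th c6 : ℕ}
    {Kad : ℕ → ℕ → ℕ} {ρ : Z → Z → ℕ} {pt : X → Z} {apex : V → Z}
    {F : RotFam G Z X ρ D (2 * R + 2) Th T}

/-- `K` meets the stabilizer of `v` in the powers of `c v ^ p` (`RotFam.stab_apex`). -/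
theorem stab_K (S : ZSys G X V Z d Y c p N D4 CX T D R Th c6 Kad ρ pt apex F) {v : V} {g : G}
    (hg : g • v = v) (hK : g ∈ RotFam.KA F) : g ∈ Subgroup.zpowers (c v ^ p) := by
  sorry

/-- LEMMA B. Induction on `ρ c0 (k c0)`, `c0 = apex v` (for all `k ∈ K`).
`k c0 = c0`: `k * g` fixes `v` (`apex_inj`) and is `≠ 1` (as `g ∉ K`), so lemma A / A'
for `k * g`.
Otherwise `RotFam.greendlinger c0 hk` and `RotFam.Gr.angle` give an apex `e` and `h ∈ F.H e`;
the germs of `c0` and `k c0` at `e` are `> T - Th` apart. If `e = u` or `e = k g u`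
then `ρ u (k g u) = ρ u (h k g u)`. Otherwise the germs of `u, c0` at `e` are `< Th` apart
(contrapositive of `F.passing` and `hno`: if `e = apex v'` with `v' = v` then `e = c0`,
excluded), the same for `k c0 = k g c0` and `k g u` (translate `hno` by `k g`), so the germs of
`u` and `k g u` are `≥ T - 3 Th ≥ Th` apart: `Pass u e (k g u)` and
`ρ u (k g u) = ρ u e + ρ e (k g u) = ρ u e + ρ e (h k g u) ≥ ρ u (h k g u)`. In all cases use
the induction hypothesis for `h * k`. -/
theorem lemB (S : ZSys G X V Z d Y c p N D4 CX T D R Th c6 Kad ρ pt apex F) {v : V} {u : Z}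
    (hu : (∃ x, u = pt x) ∨ ∃ v', v' ≠ v ∧ u = apex v')
    (hno : ∀ v', v' ≠ v → apex v' ≠ u →
      ρ (apex v) (apex v') + ρ (apex v') u ≠ ρ (apex v) u)
    {g : G} (hg : g • v = v) (hgK : g ∉ RotFam.KA F) (k : G) (hk : k ∈ RotFam.KA F) :
    2 * ρ (apex v) u ≤ ρ u (k • g • u) + (2 * R + 2) + cCA Kad CX + 2 * D := by
  sorry

/-- LEMMA B'. Lift: `w'` with `qmk w' = qmk w`, `ρ c0 w' = qd (qmk c0) (qmk w)`
(`RotFam.qd_lift`; `w'` is again a `pt` or an apex by `pt_smul`, `apex_smul`). If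
`w' = c0` trivial. `a` lifts to `g` with `g • c0 = c0` (`RotFam.qsmul_fix_iff`), `g ∉ K`.
If no apex is strictly between `c0` and `w'`: `lemB` for `u = w'` and
`RotFam.qd_spec` (the distance `qd (qmk w') (a • qmk w')` is attained by some `k g w'`).
Otherwise choose an apex `c1` strictly between with `ρ c0 c1` minimal; no apex is strictly
between `c0` and `c1`; `lemB` for `u = c1` gives
`2 b ≤ qd (qmk c1) (a • qmk c1) + (2R+2) + CA + 2D` where
`b = qd (qmk c0) (qmk c1) = ρ c0 c1 ≥ 2R+2` (`RotFam.Min` of subsegments: `c1` between `c0`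
and `w'` in `ρ` and `ρ c0 w' = qd`). Four point inequality of `qd` (`RotFam.hyp_qd`) twice, in
`E`-form at `qmk c0`: `(c1|a c1) ≥ min((c1|w),(w|a w),(a w|a c1)) - D` with
`2 (c1|w) = 2b ≥ 4R+4 > (2R+2) + CA + 4D`. -/
theorem lemB' (S : ZSys G X V Z d Y c p N D4 CX T D R Th c6 Kad ρ pt apex F) {v : V}
    {a : G ⧸ RotFam.KA F} (h1 : a ≠ 1)
    (ha : a • RotFam.qmk F (apex v) = RotFam.qmk F (apex v)) {w : Z}
    (hw : (∃ x, w = pt x) ∨ ∃ v', w = apex v') :
    2 * RotFam.qd F (RotFam.qmk F (apex v)) (RotFam.qmk F w) ≤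
      RotFam.qd F (RotFam.qmk F w) (a • RotFam.qmk F w) + (2 * R + 2) + cCA Kad CX + 4 * D := by
  sorry

/-- distinct apices of the quotient are far apart: all lifts are distinct apices -/
theorem qsep (S : ZSys G X V Z d Y c p N D4 CX T D R Th c6 Kad ρ pt apex F) {v v' : V}
    (h : RotFam.qmk F (apex v) ≠ RotFam.qmk F (apex v')) :
    2 * R + 2 ≤ RotFam.qd F (RotFam.qmk F (apex v)) (RotFam.qmk F (apex v')) := by
  sorry

/-- an element `≠ 1` fixes at most one apex: `lemB'` with `w = apex v'` and `qsep`, `par.R3` -/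
theorem one_apex (S : ZSys G X V Z d Y c p N D4 CX T D R Th c6 Kad ρ pt apex F) {v v' : V}
    {a : G ⧸ RotFam.KA F} (h1 : a ≠ 1)
    (ha : a • RotFam.qmk F (apex v) = RotFam.qmk F (apex v))
    (ha' : a • RotFam.qmk F (apex v') = RotFam.qmk F (apex v')) :
    RotFam.qmk F (apex v) = RotFam.qmk F (apex v') := by
  sorry

/-- elements fixing an apex have order `p`: `a` lifts to `g` fixing `apex v`, `g` is a power of
`c v`, and `c v ^ p ∈ F.H (apex v) ≤ K`. -/
theorem caseE_pow (S : ZSys G X V Z d Y c p N D4 CX T D R Th c6 Kad ρ pt apex F) {v : V}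
    {a : G ⧸ RotFam.KA F} (ha : a • RotFam.qmk F (apex v) = RotFam.qmk F (apex v)) :
    a ^ p = 1 := by
  sorry

/-- depth: if `a` moves `z` by at most `L` and does not fix the apex of a horoball containing
`z` then `z` is close to a base point. `z = qmk z0`; `S.depth z0`: `z0 = pt x` trivial; otherwise
`2R+2 ≤ qd (qmk (apex v)) (a • qmk (apex v)) ≤ 2 ρ (apex v) z0 + L` (`qsep`, `apex_smul`) gives
`2 ρ z0 (pt y) ≤ L`. -/
theorem depth_small (S : ZSys G X V Z d Y c p N D4 CX T D R Th c6 Kad ρ pt apex F) {L : ℕ}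
    {a : G ⧸ RotFam.KA F} {z0 : Z}
    (hz : RotFam.qd F (RotFam.qmk F z0) (a • RotFam.qmk F z0) ≤ L)
    (hne : ∀ v, ρ (apex v) z0 ≤ R → a • RotFam.qmk F (apex v) ≠ RotFam.qmk F (apex v)) :
    ∃ x : X, 2 * RotFam.qd F (RotFam.qmk F z0) (RotFam.qmk F (pt x)) ≤ L := by
  sorry

/-- CASE E. `a ≠ 1` fixes the apex `qmk (apex v)` and moves `z` by at most `L`; then `z` is close
to this apex. `z = qmk z0`. If `ρ (apex v') z0 ≤ R` for some `v'` such that `a` fixes
`qmk (apex v')` then `qmk (apex v') = qmk (apex v)` (`one_apex`) and the distance is `≤ R`.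
Otherwise `depth_small` gives a base point moved by at most `2 L`, and `lemB'`. -/
theorem caseE (S : ZSys G X V Z d Y c p N D4 CX T D R Th c6 Kad ρ pt apex F) {v : V} {L : ℕ}
    {a : G ⧸ RotFam.KA F} (h1 : a ≠ 1)
    (ha : a • RotFam.qmk F (apex v) = RotFam.qmk F (apex v)) {z : RotFam.QZ F}
    (hz : RotFam.qd F z (a • z) ≤ L) :
    2 * RotFam.qd F (RotFam.qmk F (apex v)) z ≤
      (2 * R + 2) + 3 * L + cCA Kad CX + 4 * D := by
  sorry

end ZSys

end Burn
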