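import Pool.Agent.W_MP_3ab0ed_p4.N1

/-!
Burnside part, piece P4, file 6: the quotient action is in the class.
-/

namespace Burn

namespace ZSys

variable {G X V Z : Type} [Group G] [MulAction G X] [MulAction G V] [MulAction G Z]
    {d : X → X → ℕ} {Y : V → Set X} {c : V → G} {p N D4 CX T D R Th c6 : ℕ}
    {Kad : ℕ → ℕ → ℕ} {ρ : Z → Z → ℕ} {pt : X → Z} {apex : V → Z}
    {F : RotFam G Z X ρ D (2 * R + 2) Th T}

/-- If the lift `g` of a `NonE` element does not satisfy `g ^ p = 1`, and moves a point a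
little, the element is loxodromic: `growth_quot`, `IMet.stable` with `K = 0`.
(`g • v ≠ v` for all `v` because `a` is `NonE`: `apex_smul`.) -/
theorem lox_of_lift (S : ZSys G X V Z d Y c p N D4 CX T D R Th c6 Kad ρ pt apex F)
    (hq : IsGeod (RotFam.qd F)) {a : G ⧸ RotFam.KA F} (ha : NonE F apex a) {g : G}
    (hga : (QuotientGroup.mk g : G ⧸ RotFam.KA F) = a) (hg : g ^ p ≠ 1) {x : X}
    (hx : d x (g • x) ≤ cE D) : (toIMet hq).Lox (N : ℤ) a := by
  sorry

/-- (c3) for the quotient.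
If `a` fixes an apex: `caseE_pow`, `caseE` (twice, triangle inequality,
`(2R+2) + 3L + CA + 4D ≤ 10 (R+1)` by `par.R3`).
Otherwise `NonE`. If `4 D + 1 ≤ qd z (a z)` for all `z`: `IMet.lox` with `δ = D`, `ℓ = 4D+1`.
Otherwise some `z` is moved by at most `4 D ≤ L`; base point (`depth_small`) moved by at most
`2 L`; `lift1`: `g`. If `g ^ p ≠ 1`: `lox_of_lift`. If `g ^ p = 1`: `a ^ p = 1`; if two points at
distance `> 10 (R+1)` were moved by at most `L`: `far_pair` with `B = {a}` gives a lift `g'`;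
`g' ≠ 1`; `g' ^ p = 1` contradicts `S.xs.ell` (`r = cE D`); `g' ^ p ≠ 1`: `lox_of_lift` and
`IMet.Lox.pow_ne` contradict `a ^ p = 1` (`p ≠ 0`). -/
theorem c3 (S : ZSys G X V Z d Y c p N D4 CX T D R Th c6 Kad ρ pt apex F) (hp : p ≠ 0)
    (hq : IsGeod (RotFam.qd F)) {a : G ⧸ RotFam.KA F} (ha : a ≠ 1) :
    (a ^ p = 1 ∧ ∀ z z' : RotFam.QZ F, (toIMet hq).d z (a • z) ≤ 1000 * (D : ℤ) →
      (toIMet hq).d z' (a • z') ≤ 1000 * (D : ℤ) →
        (toIMet hq).d z z' ≤ 10 * ((R : ℤ) + 1)) ∨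
      (toIMet hq).Lox (N : ℤ) a := by
  sorry

/-- the quotient is in the class: `RotFam.qd_inv`, `toIMet_hyp` and `RotFam.hyp_qd`
(`5 Th ≤ T`), `c3`, `c4`. -/
theorem inClass (S : ZSys G X V Z d Y c p N D4 CX T D R Th c6 Kad ρ pt apex F) (hp : p ≠ 0)
    (hq : IsGeod (RotFam.qd F)) :
    InClass p (D : ℤ) (10 * ((R : ℤ) + 1)) (N : ℤ) (G ⧸ RotFam.KA F) (toIMet hq) := by
  sorry

end ZSys

end Burn
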