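import Pool.Agent.W_MP_3ab0ed_p4.N2
import Pool.Agent.Burn.Shift
import Pool.Agent.Burn.Chain

/-!
Burnside part, piece P4, file 5: growth (N1). An element `g` of `G` with `g ^ p ≠ 1`, fixing no
`v`, and moving some point of `X` by at most `cE D`, has a loxodromic image in `G ⧸ K`.
Throughout `f = g ^ N`.
-/

namespace Burn

namespace XSys

variable {G X V : Type} [Group G] [MulAction G X] [MulAction G V]
  {d : X → X → ℕ} {Y : V → Set X} {c : V → G} {p N D4 CX T : ℕ}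

/-- a point on a local axis. Let `M = toIMet S.hd`, `R0 = d x (g ^ N • x)`. All points
`f^i x` are moved by at most `E` by `g` and by at most `R0` by `f`. Take `b` with
`D4 * b ≥ 2 (2 R0 + 2 E + 9)`, `y = f ^ b • x`, so `d x y ≥ D4 * b` (`S.far`), and `z` between
`x` and `y` with `Deep x y 0 r z`, `r = 2 R0 + 2 E + 9` (`IMet.deep_exists`).
`IMet.deep_axis` (for `f`, `R = R0`, `δ = 2`) gives the second claim,
`IMet.disp_btw` the first. -/
theorem axis_point (S : XSys G X V d Y c p N D4 CX T) (h4 : 1 ≤ D4) {g : G}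
    (hg : g ^ p ≠ 1) (hv : ∀ v : V, g • v ≠ v) {x : X} {E : ℕ} (hx : d x (g • x) ≤ E) :
    ∃ z : X, d z (g • z) ≤ E + 2 ∧ Btw d 20 z (g ^ N • z) (g ^ N • g ^ N • z) := by
  sorry

/-- the orbit of `z` under `f = g ^ N` is a quasi-geodesic: `IMet.chain_both` for the chain
`i ↦ f ^ i z`, `a = 20`, `δ = 2`, edges `≥ D4 ≥ 30` (`S.far` with `b = 1`). -/
theorem axis_chain (S : XSys G X V d Y c p N D4 CX T) (h4 : 30 ≤ D4) {g : G}
    (hg : g ^ p ≠ 1) (hv : ∀ v : V, g • v ≠ v) {z : X}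
    (hz : Btw d 20 z (g ^ N • z) (g ^ N • g ^ N • z)) {i k j : ℕ} (hik : i < k) (hkj : k < j) :
    Btw d 24 ((g ^ N) ^ i • z) ((g ^ N) ^ k • z) ((g ^ N) ^ j • z) := by
  sorry

/-- separations along the local axis are bounded. Let `z_i = f^i z`, moved by at most
`E + 2` by `g` (`g` commutes with `f`). If `u = π_v z_a`, `w = π_v z_b` are at distance
`> 20 (E + 24) + 2` then `Btw 20 z_a u z_b`, `Btw 20 z_a w z_b` (`proj4`, `proj4'`), so `g` moves
`u` and `w` by at most `(E+2) + 20 + 2` (`IMet.disp_btw`), and `c v` moves them by at most 1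
(`S.step`). `S.lc` with `r = E + 24`: `g` and `c v` are powers of some `h`; `h` commutes with
`c v`, so `c (h • v) = c v` (`S.conj`), `c v` fixes `v` and `h • v` (`S.stab`), and `c v ≠ 1`
(`S.ord`), so `h • v = v` (`S.disj`) and `g • v = v`. -/
theorem axis_sep (S : XSys G X V d Y c p N D4 CX T) {g : G} (hv : ∀ v : V, g • v ≠ v)
    {z : X} {E : ℕ} (hz : d z (g • z) ≤ E + 2) (v : V) (a b : ℕ) :
    d (proj d (Y v) ((g ^ N) ^ a • z)) (proj d (Y v) ((g ^ N) ^ b • z)) ≤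
      20 * (E + 24) + 2 := by
  sorry

end XSys

namespace ZSys

variable {G X V Z : Type} [Group G] [MulAction G X] [MulAction G V] [MulAction G Z]
    {d : X → X → ℕ} {Y : V → Set X} {c : V → G} {p N D4 CX T D R Th c6 : ℕ}
    {Kad : ℕ → ℕ → ℕ} {ρ : Z → Z → ℕ} {pt : X → Z} {apex : V → Z}
    {F : RotFam G Z X ρ D (2 * R + 2) Th T}

/-- growth in the cone-off. `m = Kad 24 (cDel D)`. `ρ z (f z) ≥ m + 1`: otherwise `S.base` with
this `m` gives `d z (f z) ≤ m * 2 ^ m < D4`. `S.excess` (`e = 24`, `κ = cDel D`,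
`axis_chain`, `axis_sep`) for `z, f z, f^(b+1) z`... : `ρ z (f z) + ρ (f z) (f^(b+1) z) ≤
ρ z (f^(b+1) z) + m`, and `ρ (f z) (f^(b+1) z) = ρ z (f^b z)`. Induction on `b`. -/
theorem growth_cone (S : ZSys G X V Z d Y c p N D4 CX T D R Th c6 Kad ρ pt apex F) {g : G}
    (hg : g ^ p ≠ 1) (hv : ∀ v : V, g • v ≠ v) {z : X} (hz : d z (g • z) ≤ cE D + 2)
    (hz2 : Btw d 20 z (g ^ N • z) (g ^ N • g ^ N • z)) (b : ℕ) :
    b ≤ ρ (pt z) (pt ((g ^ N) ^ b • z)) := by
  sorry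

/-- N1: `RotFam.direct` for `pt z` and `pt (f^b z)`: germs at `apex v` are within `c6` of the
projections (`germ_pt`), projections within `cDel D` (`axis_sep`), `par.T2`. -/
theorem growth_quot (S : ZSys G X V Z d Y c p N D4 CX T D R Th c6 Kad ρ pt apex F) {g : G}
    (hg : g ^ p ≠ 1) (hv : ∀ v : V, g • v ≠ v) {x : X} (hx : d x (g • x) ≤ cE D) :
    ∃ z : RotFam.QZ F, ∀ b : ℕ,
      b ≤ RotFam.qd F z ((QuotientGroup.mk g : G ⧸ RotFam.KA F) ^ (N * b) • z) := by
  sorry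

end ZSys

end Burn
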