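import Pool.Agent.W_MP_3ab0ed_p4.B

/-!
Burnside part, piece P4, file 4: elements of `G ⧸ K` without fixed apex: lifting two points
together with an element; the class axiom `c4` for the quotient.
-/

namespace Burn

namespace ZSys

variable {G X V Z : Type} [Group G] [MulAction G X] [MulAction G V] [MulAction G Z]
    {d : X → X → ℕ} {Y : V → Set X} {c : V → G} {p N D4 CX T D R Th c6 : ℕ}
    {Kad : ℕ → ℕ → ℕ} {ρ : Z → Z → ℕ} {pt : X → Z} {apex : V → Z}
    {F : RotFam G Z X ρ D (2 * R + 2) Th T}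

/-- `a` fixes no apex of the quotient -/
def NonE (F : RotFam G Z X ρ D (2 * R + 2) Th T) (apex : V → Z) (a : G ⧸ RotFam.KA F) : Prop :=
  ∀ v : V, a • RotFam.qmk F (apex v) ≠ RotFam.qmk F (apex v)

/-- two points of the same distance realised; no apex between if both are moved a little by
an element without fixed apex.
If `e = apex v` is between `pt x` and `pt y`, then `qd (qmk e)` adds up too (`hmin`,
`RotFam.min_iff`, `RotFam.qd_le`), and the four point inequality for `qd` (compare `IMet.disp_btw`)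
gives `qd (qmk e) (a • qmk e) ≤ 2 L + D < 2 R + 2` so `a` fixes `qmk e` (`qsep`,
`apex_smul`), against `NonE`. -/
theorem no_apex_between (S : ZSys G X V Z d Y c p N D4 CX T D R Th c6 Kad ρ pt apex F)
    {a : G ⧸ RotFam.KA F} (ha : NonE F apex a) {x y : X}
    (hmin : RotFam.Min F (pt x) (pt y))
    (hx : RotFam.qd F (RotFam.qmk F (pt x)) (a • RotFam.qmk F (pt x)) ≤ 2 * cL D)
    (hy : RotFam.qd F (RotFam.qmk F (pt y)) (a • RotFam.qmk F (pt y)) ≤ 2 * cL D) (v : V) :
    ρ (pt x) (apex v) + ρ (apex v) (pt y) ≠ ρ (pt x) (pt y) := by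
  sorry

/-- if no apex is between `pt x` and `pt y` then all germs are close
(contrapositive of `F.passing`) -/
theorem germ_close (S : ZSys G X V Z d Y c p N D4 CX T D R Th c6 Kad ρ pt apex F)
    {u w : Z} {v : V} (hu : u ≠ apex v) (hw : w ≠ apex v)
    (h : ρ u (apex v) + ρ (apex v) w ≠ ρ u w) {y y' : X} (hy : y ∈ F.germ (apex v) u)
    (hy' : y' ∈ F.germ (apex v) w) : d y y' < Th := by
  sorry

/-- N2: a lift moving both points a little. Choose a lift `g` of `a` with
`ρ (pt x) (g • pt x) = qd ..` (`RotFam.qd_spec`: replace `g` by `k * g`). No apex between `pt x`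
and `g • pt x` (`apex_far`: an apex would give `ρ ≥ 2R+2 > 2 L`). At every apex the germs
of `(pt y, pt x)`, `(pt x, g • pt x)`, `(g • pt x, g • pt y)` are `< Th` apart (`germ_close`,
`no_apex_between`, translate by `g`; germs exist by `F.germ_ne`), so those of `pt y`,
`g • pt y` are `≤ 3 Th ≤ T - 2 Th` apart and `RotFam.direct` gives `Min F (pt y) (g • pt y)`. -/
theorem lift2 (S : ZSys G X V Z d Y c p N D4 CX T D R Th c6 Kad ρ pt apex F)
    {a : G ⧸ RotFam.KA F} (ha : NonE F apex a) {x y : X}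
    (hmin : RotFam.Min F (pt x) (pt y))
    (hx : RotFam.qd F (RotFam.qmk F (pt x)) (a • RotFam.qmk F (pt x)) ≤ 2 * cL D)
    (hy : RotFam.qd F (RotFam.qmk F (pt y)) (a • RotFam.qmk F (pt y)) ≤ 2 * cL D) :
    ∃ g : G, (QuotientGroup.mk g : G ⧸ RotFam.KA F) = a ∧
      ρ (pt x) (g • pt x) ≤ 2 * cL D ∧ ρ (pt y) (g • pt y) ≤ 2 * cL D := by
  sorry

/-- small `ρ` displacement gives bounded `d` displacement (`S.base` with `m = cL D`) -/
theorem base_E (S : ZSys G X V Z d Y c p N D4 CX T D R Th c6 Kad ρ pt apex F) {x : X} {g : G}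
    (h : ρ (pt x) (g • pt x) ≤ 2 * cL D) : d x (g • x) ≤ cE D := by
  sorry

/-- one lift for one base point (only `RotFam.qd_spec` and `base_E`) -/
theorem lift1 (S : ZSys G X V Z d Y c p N D4 CX T D R Th c6 Kad ρ pt apex F)
    {a : G ⧸ RotFam.KA F} {x : X}
    (hx : RotFam.qd F (RotFam.qmk F (pt x)) (a • RotFam.qmk F (pt x)) ≤ 2 * cL D) :
    ∃ g : G, (QuotientGroup.mk g : G ⧸ RotFam.KA F) = a ∧ d x (g • x) ≤ cE D := by
  sorry

/-- lifting a pair of far points moved a little by several elements without fixed apex.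
`z, z'` in the quotient, moved by at most `L` by all elements of the nonempty set `B`
(all of them `NonE`), at distance `> 10 (R+1)`. Base points by `depth_small` (they depend only
on `z`, `z'`: choose representatives `z0`; apply `depth_small` with some element of `B`;
all elements of `B` then move the base points by at most `2 L`); choose lifts `pt x`, `pt y`
realising the distance (`RotFam.qd_lift`; lifts of `qmk (pt y)` are of the form `pt y'` by
`pt_smul`); `ρ (pt x) (pt y) ≥ 10 (R+1) + 1 - L ≥ 20 cE D + 2` (`par.R4`) and `ρ ≤ d`. -/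
theorem far_pair (S : ZSys G X V Z d Y c p N D4 CX T D R Th c6 Kad ρ pt apex F)
    {B : Set (G ⧸ RotFam.KA F)} (hne : B.Nonempty) (hB : ∀ a ∈ B, NonE F apex a)
    {z z' : RotFam.QZ F} (hz : ∀ a ∈ B, RotFam.qd F z (a • z) ≤ cL D)
    (hz' : ∀ a ∈ B, RotFam.qd F z' (a • z') ≤ cL D)
    (hfar : 10 * (R + 1) < RotFam.qd F z z') :
    ∃ x y : X, 20 * cE D + 2 ≤ d x y ∧ ∀ a ∈ B, ∃ g : G,
      (QuotientGroup.mk g : G ⧸ RotFam.KA F) = a ∧ d x (g • x) ≤ cE D ∧
        d y (g • y) ≤ cE D := by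
  sorry

/-- (c4) for the quotient. Both elements are `NonE`: otherwise `caseE` bounds
`qd z z'` by `(2R+2) + 3L + CA + 4D ≤ 10 (R+1)`. `far_pair` with `B = {a, b}`, `S.xs.lc` with
`r = cE D` (`1 ≤ cE D`), and map to the quotient. -/
theorem c4 (S : ZSys G X V Z d Y c p N D4 CX T D R Th c6 Kad ρ pt apex F)
    {a b : G ⧸ RotFam.KA F} (ha : a ≠ 1) (hb : b ≠ 1) {z z' : RotFam.QZ F}
    (h1 : RotFam.qd F z (a • z) ≤ cL D) (h2 : RotFam.qd F z' (a • z') ≤ cL D)
    (h3 : RotFam.qd F z (b • z) ≤ cL D) (h4 : RotFam.qd F z' (b • z') ≤ cL D)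
    (hfar : 10 * (R + 1) < RotFam.qd F z z') :
    ∃ w : G ⧸ RotFam.KA F, a ∈ Subgroup.zpowers w ∧ b ∈ Subgroup.zpowers w := by
  sorry

end ZSys

end Burn
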