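import Pool.Agent.W_MP_3ab0ed_burn.Excess
import Pool.Agent.W_MP_3ab0ed_burn.P3Direct
import Pool.Agent.W_MP_3ab0ed_burn.P3Quot
import Pool.Agent.Burn.LC4

/-!
Burnside part, piece P4, file 1: the interface.

`XSys` : facts about the action on the rescaled space `(X, d)` and the family `Y v`.
`Par` : the numeric constraints on the constants.
`ZSys` : facts about the cone-off `(Z, ρ)` and its rotation family `F`.
Constants (all universal): `L = 1000 D`, `cE D = 2 L 2^L`, `cDel D = 20 (cE D + 24) + 2`,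
`CA = cCA Kad CX`, `A = 10 (R + 1)`.
-/

namespace Burn

/-- the class constant `L` -/
def cL (D : ℕ) : ℕ := 1000 * D

/-- bound for `d` when `ρ ≤ 2 L` -/
def cE (D : ℕ) : ℕ := 2 * cL D * 2 ^ cL D

/-- bound for the separations along a local axis -/
def cDel (D : ℕ) : ℕ := 20 * (cE D + 24) + 2

/-- the constant of lemma A -/
def cCA (Kad : ℕ → ℕ → ℕ) (CX : ℕ) : ℕ := Kad 20 79 + Kad 9 50 + Kad (158 + CX) 5000

/-- X-level facts. `G` acts by isometries on the integer geodesic space `(X, d)` (rescaled),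
`Y` is the family of quasi-axes, `c v` generates the stabilizer of `v`. -/
structure XSys (G X V : Type) [Group G] [MulAction G X] [MulAction G V]
    (d : X → X → ℕ) (Y : V → Set X) (c : V → G) (p N D4 CX T : ℕ) : Prop where
  hd : IsGeod d
  hh : Hyp d 2
  hF : Fam d Y 2 2
  inv : ∀ (g : G) (x y : X), d (g • x) (g • y) = d x y
  hY : ∀ (g : G) (v : V) (y : X), y ∈ Y v → g • y ∈ Y (g • v)
  stab : ∀ (g : G) (v : V), g • v = v ↔ g ∈ Subgroup.zpowers (c v)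
  conj : ∀ (g : G) (v : V), c (g • v) = g * c v * g⁻¹
  ord : ∀ (v : V) (j : ℤ), c v ^ j = 1 → j = 0
  disj : ∀ (g : G) (v v' : V), v ≠ v' → g • v = v → g • v' = v' → g = 1
  step : ∀ (v : V), ∀ y ∈ Y v, d y (c v • y) ≤ 1
  rot : ∀ (v : V) (j : ℤ), j ≠ 0 → ∀ x, T ≤ d x ((c v ^ p) ^ j • x)
  tube : ∀ (g : G) (v : V) (x : X), g • v = v → g ≠ 1 →
    2 * d x (proj d (Y v) x) ≤ d x (g • x) + CX
  lc : ∀ (g h : G) (r : ℕ) (x y : X), 1 ≤ r → d x (g • x) ≤ r → d y (g • y) ≤ r →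
    d x (h • x) ≤ r → d y (h • y) ≤ r → 20 * r + 2 ≤ d x y →
    ∃ z : G, g ∈ Subgroup.zpowers z ∧ h ∈ Subgroup.zpowers z
  ell : ∀ (g : G) (r : ℕ) (x y : X), g ≠ 1 → g ^ p = 1 → 1 ≤ r → d x (g • x) ≤ r →
    d y (g • y) ≤ r → d x y ≤ 20 * r + 1
  far : ∀ g : G, g ^ p ≠ 1 → (∀ v : V, g • v ≠ v) → ∀ (x : X) (b : ℕ),
    D4 * b ≤ d x (g ^ (N * b) • x)

/-- numeric constraints -/
structure Par (D R Th T c6 N D4 CX : ℕ) (Kad : ℕ → ℕ → ℕ) : Prop where
  hD : 1 ≤ D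
  hN : 1 ≤ N
  hD4 : (Kad 24 (cDel D) + 1) * 2 ^ Kad 24 (cDel D) ≤ D4
  R1 : Kad 24 (cDel D) ≤ R
  R2 : cL D ≤ R
  R3 : cCA Kad CX + 4 * D + 3 * cL D + 1 ≤ 2 * R + 2
  R4 : 20 * cE D + 2 + cL D ≤ 10 * (R + 1)
  T1 : 8 * Th ≤ T
  T2 : cDel D + 2 * c6 + 2 * Th ≤ T
  hD4' : 30 ≤ D4

/-- the cone-off and its rotation family -/
structure ZSys (G X V Z : Type) [Group G] [MulAction G X] [MulAction G V] [MulAction G Z]
    (d : X → X → ℕ) (Y : V → Set X) (c : V → G) (p N D4 CX T D R Th c6 : ℕ)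
    (Kad : ℕ → ℕ → ℕ) (ρ : Z → Z → ℕ) (pt : X → Z) (apex : V → Z)
    (F : RotFam G Z X ρ D (2 * R + 2) Th T) : Prop where
  xs : XSys G X V d Y c p N D4 CX T
  par : Par D R Th T c6 N D4 CX Kad
  FV : F.V = Set.range apex
  FH : ∀ v, F.H (apex v) = Subgroup.zpowers (c v ^ p)
  FdG : ∀ a b, F.dG a b = d a b
  pt_smul : ∀ (g : G) (x : X), g • pt x = pt (g • x)
  apex_smul : ∀ (g : G) (v : V), g • apex v = apex (g • v)
  apex_inj : ∀ v v', apex v = apex v' → v = v'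
  rho_pt : ∀ x y, ρ (pt x) (pt y) ≤ d x y
  base : ∀ x y m, m ≤ R → ρ (pt x) (pt y) ≤ 2 * m + 1 → d x y ≤ ρ (pt x) (pt y) * 2 ^ m
  apex_pt : ∀ v, ∀ y ∈ Y v, ρ (apex v) (pt y) = R + 1
  apex_far : ∀ v x, R + 1 ≤ ρ (apex v) (pt x)
  sep : ∀ v v', v ≠ v' → 2 * R + 2 ≤ ρ (apex v) (apex v')
  germ_iff : ∀ v u, R + 1 ≤ ρ (apex v) u → ∀ y, y ∈ F.germ (apex v) u ↔
    y ∈ Y v ∧ ρ (apex v) (pt y) + ρ (pt y) u = ρ (apex v) u
  germ_pt : ∀ v x, ∀ y ∈ F.germ (apex v) (pt x), d y (proj d (Y v) x) ≤ c6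
  depth : ∀ z : Z, (∃ x, z = pt x) ∨
    ∃ v, ∃ y ∈ Y v, ρ (apex v) z ≤ R ∧ ρ z (pt y) + ρ (apex v) z = R + 1
  excess : ∀ (a b x : X) (e κ : ℕ), Btw d e a x b →
    (∀ v, d (proj d (Y v) a) (proj d (Y v) x) ≤ κ ∨
      d (proj d (Y v) x) (proj d (Y v) b) ≤ κ) → Btw ρ (Kad e κ) (pt a) (pt x) (pt b)

/-- from natural number valued metrics to `IMet` -/
def toIMet {X : Type*} {d : X → X → ℕ} (hd : IsGeod d) : IMet X where
  d x y := (d x y : ℤ)
  nonneg x y := Int.natCast_nonneg _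
  eq_of_zero x y h := hd.eq x y (by exact_mod_cast h)
  self x := by rw [hd.self]; rfl
  symm x y := by rw [hd.symm]
  tri x y z := by exact_mod_cast hd.tri x y z
  geo x y k h0 hk := by
    obtain ⟨n, rfl⟩ := Int.eq_ofNat_of_zero_le h0
    obtain ⟨z, h1, h2⟩ := hd.geod x y n (by exact_mod_cast hk)
    exact ⟨z, by exact_mod_cast h1, by omega⟩

theorem toIMet_d {X : Type*} {d : X → X → ℕ} (hd : IsGeod d) (x y : X) :
    (toIMet hd).d x y = (d x y : ℤ) := rfl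

theorem toIMet_hyp {X : Type*} {d : X → X → ℕ} (hd : IsGeod d) {δ : ℕ} (hh : Hyp d δ) :
    (toIMet hd).Hyp δ := by
  intro x y z w
  have h := hh x y z w
  rw [toIMet_d, toIMet_d, toIMet_d, toIMet_d, toIMet_d, toIMet_d]
  omega

/-- from `IMet` to natural number valued metrics -/
def IMet.nd {X : Type*} (M : IMet X) (x y : X) : ℕ := (M.d x y).toNat

theorem IMet.nd_cast {X : Type*} (M : IMet X) (x y : X) : (M.nd x y : ℤ) = M.d x y :=
  Int.toNat_of_nonneg (M.nonneg x y)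

theorem IMet.isGeod_nd {X : Type*} (M : IMet X) : IsGeod M.nd where
  self x := by
    have h := M.nd_cast x x
    rw [M.self] at h
    exact_mod_cast h
  eq x y h := M.eq_of_zero x y (by rw [← M.nd_cast, h]; rfl)
  symm x y := by unfold IMet.nd; rw [M.symm]
  tri x y z := by
    have h := M.tri x y z
    rw [← M.nd_cast, ← M.nd_cast, ← M.nd_cast] at h
    exact_mod_cast h
  geod x y k hk := by
    have e := M.nd_cast x y
    obtain ⟨z, h1, h2⟩ := M.geo x y k (Int.natCast_nonneg _) (by omega)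
    have e1 := M.nd_cast x z
    have e2 := M.nd_cast z y
    exact ⟨z, by omega, by omega⟩

theorem IMet.hyp_nd {X : Type*} (M : IMet X) {δ : ℕ} (hh : M.Hyp δ) : Burn.Hyp M.nd δ := by
  intro x y z w
  have h := hh x y z w
  have e1 := M.nd_cast x y
  have e2 := M.nd_cast z w
  have e3 := M.nd_cast x z
  have e4 := M.nd_cast y w
  have e5 := M.nd_cast x w
  have e6 := M.nd_cast y z
  omega

end Burn
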